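import Mathlib

/-!
# Metric and edge metric dimension versus cyclomatic number

Breadth-first-search structure and the core resolving lemma.
-/

set_option autoImplicit false

namespace Pool.Agent.MD717

open SimpleGraph

variable {V : Type*} {G : SimpleGraph V}

/-- One step of a geodesic. -/
lemma exists_step (hc : G.Connected) {y z : V} (h : y ≠ z) :
    ∃ b, G.Adj z b ∧ G.dist y b + 1 = G.dist y z := by
  obtain ⟨p, hp⟩ := hc.exists_walk_length_eq_dist z y
  cases p with
  | nil => exact absurd rfl h
  | cons hadj q =>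
    rename_i b
    refine ⟨b, hadj, ?_⟩
    have h1 : G.dist b y ≤ q.length := dist_le q
    have h2 : G.dist z y = q.length + 1 := by rw [← hp]; rfl
    have h3 : G.dist z y ≤ G.dist z b + G.dist b y := hc.dist_triangle
    have h4 : G.dist z b = 1 := dist_eq_one_iff_adj.mpr hadj
    rw [dist_comm (u := y) (v := b), dist_comm (u := y) (v := z)]
    omega

lemma dist_adj_le (hc : G.Connected) {u v w : V} (h : G.Adj v w) :
    G.dist u w ≤ G.dist u v + 1 := by
  have h3 : G.dist u w ≤ G.dist u v + G.dist v w := hc.dist_triangle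
  have h4 : G.dist v w = 1 := dist_eq_one_iff_adj.mpr h
  omega

/-- A breadth-first-search parent function rooted at `r`. -/
structure IsBFS (G : SimpleGraph V) (r : V) (par : V → V) : Prop where
  root : par r = r
  adj : ∀ v, v ≠ r → G.Adj v (par v)
  dist : ∀ v, v ≠ r → G.dist r v = G.dist r (par v) + 1

lemma exists_bfs (hc : G.Connected) (r : V) : ∃ par : V → V, IsBFS G r par := by
  classical
  have h : ∀ v, v ≠ r → ∃ b, G.Adj v b ∧ G.dist r b + 1 = G.dist r v :=
    fun v hv => exists_step hc (Ne.symm hv)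
  choose! f hf using h
  refine ⟨fun v => if v = r then r else f v, by simp, ?_, ?_⟩
  · intro v hv
    simpa [hv] using (hf v hv).1
  · intro v hv
    simpa [hv] using (hf v hv).2.symm

/-- `x` is an ancestor of `z` (possibly `x = z`) in the tree given by `par`. -/
def Anc (par : V → V) (x z : V) : Prop := ∃ i : ℕ, par^[i] z = x

lemma Anc.refl (par : V → V) (x : V) : Anc par x x := ⟨0, rfl⟩

lemma Anc.of_par {par : V → V} {x z : V} (h : Anc par x (par z)) : Anc par x z := by
  obtain ⟨i, hi⟩ := h
  exact ⟨i + 1, by rw [Function.iterate_succ_apply]; exact hi⟩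

lemma Anc.trans {par : V → V} {x y z : V} (h1 : Anc par x y) (h2 : Anc par y z) :
    Anc par x z := by
  obtain ⟨i, hi⟩ := h1
  obtain ⟨j, hj⟩ := h2
  exact ⟨i + j, by rw [Function.iterate_add_apply, hj, hi]⟩

lemma Anc.par_of_ne {par : V → V} {x z : V} (h : Anc par x z) (hne : x ≠ z) :
    Anc par x (par z) := by
  obtain ⟨i, hi⟩ := h
  cases i with
  | zero => exact absurd hi.symm hne
  | succ i => exact ⟨i, by rw [Function.iterate_succ_apply] at hi; exact hi⟩

/-- `Desc G r z x`: some geodesic from `z` to the root `r` passes through `x`. -/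
def Desc (G : SimpleGraph V) (r z x : V) : Prop := G.dist r z = G.dist r x + G.dist x z

lemma dist_le_add (hc : G.Connected) (r x z : V) : G.dist r z ≤ G.dist r x + G.dist x z :=
  hc.dist_triangle

lemma anc_root {par : V → V} {r : V} (hb : IsBFS G r par) {x : V} (h : Anc par x r) : x = r := by
  obtain ⟨i, hi⟩ := h
  induction i generalizing x with
  | zero => exact hi.symm
  | succ i ih =>
    rw [Function.iterate_succ_apply, hb.root] at hi
    exact ih hi

lemma root_anc (hc : G.Connected) {par : V → V} {r : V} (hb : IsBFS G r par) (z : V) :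
    Anc par r z := by
  generalize hn : G.dist r z = n
  induction n generalizing z with
  | zero =>
    have : r = z := hc.dist_eq_zero_iff.mp hn
    rw [← this]; exact Anc.refl _ _
  | succ n ih =>
    have hz : z ≠ r := by
      rintro rfl
      simp at hn
    have := hb.dist z hz
    exact (ih (par z) (by omega)).of_par

lemma anc_desc (hc : G.Connected) {par : V → V} {r : V} (hb : IsBFS G r par) {x z : V}
    (h : Anc par x z) : Desc G r z x := by
  obtain ⟨i, hi⟩ := h
  induction i generalizing z with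
  | zero =>
    have : z = x := hi
    subst this
    simp [Desc]
  | succ i ih =>
    rw [Function.iterate_succ_apply] at hi
    by_cases hz : z = r
    · subst hz
      rw [hb.root] at hi
      exact ih hi
    · have h1 := ih hi
      have h2 := hb.dist z hz
      have h3 := dist_adj_le hc (u := x) (hb.adj z hz).symm
      have h4 := dist_le_add hc r x z
      unfold Desc at *
      omega

lemma desc_eq (hc : G.Connected) {r x z : V} (h : Desc G r z x) (hl : G.dist r z ≤ G.dist r x) :
    x = z := by
  unfold Desc at h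
  exact hc.dist_eq_zero_iff.mp (by omega)

lemma desc_trans_le (hc : G.Connected) {r x z b : V} (h : Desc G r z x)
    (hb : G.Adj z b) (h2 : G.dist x b + 1 = G.dist x z) :
    Desc G r b x ∧ G.dist r b + 1 = G.dist r z := by
  have h3 := dist_le_add hc r x b
  have h4 := dist_adj_le hc (u := r) hb.symm
  unfold Desc at *
  omega

/-- The graph of non-tree edges. -/
def NT (G : SimpleGraph V) (par : V → V) : SimpleGraph V where
  Adj u v := G.Adj u v ∧ par u ≠ v ∧ par v ≠ u
  symm := ⟨fun _ _ h => ⟨h.1.symm, h.2.2, h.2.1⟩⟩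
  loopless := ⟨fun _ h => G.loopless.irrefl _ h.1⟩

/-- Lower endpoints of vertical non-tree edges. -/
def Low (G : SimpleGraph V) (r : V) (par : V → V) (b : V) : Prop :=
  ∃ a, (NT G par).Adj a b ∧ G.dist r a = G.dist r b + 1

/-- Leaves of the search tree. -/
def Leaf (r : V) (par : V → V) (w : V) : Prop := w ≠ r ∧ ∀ u, u ≠ r → par u ≠ w

/-- `InT par X z`: `z` lies in the union of the subtrees hanging at the vertices of `X`. -/
def InT (par : V → V) (X : V → Prop) (z : V) : Prop := ∃ x, X x ∧ Anc par x z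

lemma exit_lemma (hc : G.Connected) {par : V → V} {r : V} (hb : IsBFS G r par)
    {X : V → Prop} {K : ℕ} (hX : ∀ x, X x → G.dist r x = K) {y : V} (hy : G.dist r y = K)
    (hyX : ¬ InT par X y) (z : V) (hz : InT par X z) (hd : Desc G r z y) :
    ∃ b, Low G r par b ∧ ¬ InT par X b ∧ Desc G r b y ∧ G.dist r b < G.dist r z := by
  generalize hn : G.dist y z = n
  induction n generalizing z with
  | zero =>
    have : y = z := hc.dist_eq_zero_iff.mp hn
    subst this
    exact absurd hz hyX
  | succ n ih =>
    have hne : y ≠ z := by rintro rfl; exact hyX hz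
    obtain ⟨b, hzb, hyb⟩ := exists_step hc hne
    obtain ⟨h1, h2⟩ := desc_trans_le hc hd hzb hyb
    by_cases hbT : InT par X b
    · obtain ⟨b', h3, h4, h5, h6⟩ := ih b hbT h1 (by omega)
      exact ⟨b', h3, h4, h5, by omega⟩
    · have hdz := hd
      unfold Desc at hdz
      have hzr : z ≠ r := by
        rintro rfl
        simp at h2
      have hbr : par b ≠ z := by
        intro h
        by_cases hb' : b = r
        · subst hb'; rw [hb.root] at h; exact hzb.ne' h
        · have := hb.dist b hb'
          rw [h] at this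
          omega
      refine ⟨b, ⟨z, ⟨hzb, ?_, hbr⟩, by omega⟩, hbT, h1, by omega⟩
      intro hpar
      obtain ⟨x, hx, hxz⟩ := hz
      have hxz' : x ≠ z := by
        rintro rfl
        have := hX _ hx
        have : G.dist y x = 0 := by omega
        exact hne (hc.dist_eq_zero_iff.mp this)
      exact hbT ⟨x, hx, hpar ▸ hxz.par_of_ne hxz'⟩

lemma entry_lemma (hc : G.Connected) {par : V → V} {r : V} (hb : IsBFS G r par)
    {X : V → Prop} {x : V} (hx : X x) (b : V) (hbT : ¬ InT par X b) (hd : Desc G r b x) :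
    ∃ b', Low G r par b' ∧ InT par X b' ∧ G.dist r b' < G.dist r b := by
  generalize hn : G.dist x b = n
  induction n generalizing b with
  | zero =>
    have : x = b := hc.dist_eq_zero_iff.mp hn
    subst this
    exact absurd ⟨x, hx, Anc.refl _ _⟩ hbT
  | succ n ih =>
    have hne : x ≠ b := by rintro rfl; exact hbT ⟨x, hx, Anc.refl _ _⟩
    obtain ⟨c, hbc, hxc⟩ := exists_step hc hne
    obtain ⟨h1, h2⟩ := desc_trans_le hc hd hbc hxc
    by_cases hcT : InT par X c
    · have hcr : par c ≠ b := by
        intro h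
        by_cases hb' : c = r
        · subst hb'; rw [hb.root] at h; exact hbc.ne' h
        · have := hb.dist c hb'
          rw [h] at this
          omega
      refine ⟨c, ⟨b, ⟨hbc, ?_, hcr⟩, by omega⟩, hcT, by omega⟩
      intro hpar
      obtain ⟨x', hx', hxc'⟩ := hcT
      exact hbT ⟨x', hx', (hpar ▸ hxc' : Anc par x' (par b)).of_par⟩
    · obtain ⟨b', h3, h4, h5⟩ := ih c hcT h1 (by omega)
      exact ⟨b', h3, h4, by omega⟩

/-- Core lemma: two disjoint sets `X`, `Y` of vertices on the same level are told apart by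
some vertex of `S`: it descends to exactly one of them. -/
lemma core (hc : G.Connected) {par : V → V} {r : V} (hb : IsBFS G r par)
    {S : V → Prop} (hS : ∀ b, Low G r par b → S b)
    {X Y : V → Prop} {K : ℕ} (hX : ∀ x, X x → G.dist r x = K) (hY : ∀ y, Y y → G.dist r y = K)
    (hdisj : ∀ v, X v → ¬ Y v) (hT : ∃ z, S z ∧ InT par X z) :
    ∃ s, S s ∧ (((∃ x, X x ∧ Desc G r s x) ∧ ∀ y, Y y → ¬ Desc G r s y) ∨
      ((∃ y, Y y ∧ Desc G r s y) ∧ ∀ x, X x → ¬ Desc G r s x)) := by
  classical
  have hex : ∃ n, ∃ z, S z ∧ InT par X z ∧ G.dist r z = n := by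
    obtain ⟨z, hz⟩ := hT
    exact ⟨_, z, hz.1, hz.2, rfl⟩
  obtain ⟨z, hzS, hzT, hzn⟩ := Nat.find_spec hex
  have hmin : ∀ w, S w → InT par X w → G.dist r z ≤ G.dist r w := by
    intro w hw hwT
    rw [hzn]
    exact Nat.find_min' hex ⟨w, hw, hwT, rfl⟩
  obtain ⟨x, hx, hxz⟩ := hzT
  by_cases h1 : ∃ y, Y y ∧ Desc G r z y
  · obtain ⟨y, hy, hzy⟩ := h1
    have hyX : ¬ InT par X y := by
      rintro ⟨x', hx', hx'y⟩
      have h2 := anc_desc hc hb hx'y
      have : x' = y := desc_eq hc h2 (by rw [hX _ hx', hY _ hy])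
      subst this
      exact hdisj _ hx' hy
    obtain ⟨b, hbL, hbT, hby, hbz⟩ :=
      exit_lemma hc hb hX (hY y hy) hyX z ⟨x, hx, hxz⟩ hzy
    by_cases h2 : ∃ x', X x' ∧ Desc G r b x'
    · obtain ⟨x', hx', hbx'⟩ := h2
      obtain ⟨b', hb'L, hb'T, hb'b⟩ := entry_lemma hc hb hx' b hbT hbx'
      have := hmin b' (hS _ hb'L) hb'T
      omega
    · refine ⟨b, hS _ hbL, Or.inr ⟨⟨y, hy, hby⟩, ?_⟩⟩
      intro x' hx' hd
      exact h2 ⟨x', hx', hd⟩
  · refine ⟨z, hzS, Or.inl ⟨⟨x, hx, anc_desc hc hb hxz⟩, ?_⟩⟩
    intro y hy hd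
    exact h1 ⟨y, hy, hd⟩

end Pool.Agent.MD717
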