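import Mathlib
import Pool.Agent.MD717.Core

/-!
# Resolving sets from a breadth-first-search tree
-/

set_option autoImplicit false

namespace Pool.Agent.MD717

open SimpleGraph

variable {V : Type*} {G : SimpleGraph V}

/-- Every subtree contains a leaf. -/
lemma exists_leaf [Fintype V] (hc : G.Connected) {par : V → V} {r : V} (hb : IsBFS G r par)
    (hr : ∃ u, G.Adj r u) (x : V) : ∃ z, Leaf r par z ∧ Anc par x z := by
  classical
  obtain ⟨z, hz, hmax⟩ := Finset.exists_max_image (Finset.univ.filter (fun z => Anc par x z))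
    (fun z => G.dist r z) ⟨x, by simp [Anc.refl]⟩
  simp only [Finset.mem_filter, Finset.mem_univ, true_and] at hz hmax
  have hno : ∀ u, u ≠ r → par u ≠ z := by
    intro u hu hpar
    have h1 : Anc par x u := (hpar ▸ hz : Anc par x (par u)).of_par
    have h2 := hmax u h1
    have h3 := hb.dist u hu
    rw [hpar] at h3
    omega
  refine ⟨z, ⟨?_, hno⟩, hz⟩
  rintro rfl
  obtain ⟨u, hu⟩ := hr
  have hur : u ≠ z := hu.ne'
  have h1 := hb.dist u hur
  have h2 : G.dist z u = 1 := dist_eq_one_iff_adj.mpr hu
  have h3 : z = par u := hc.dist_eq_zero_iff.mp (by omega)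
  exact hno u hur h3.symm

/-- Vertex version. -/
theorem vertex_resolve (hc : G.Connected) {par : V → V} {r : V} (hb : IsBFS G r par)
    {S : V → Prop} (hLow : ∀ b, Low G r par b → S b) (hT : ∀ x, ∃ z, S z ∧ Anc par x z)
    {x y : V} (hxy : x ≠ y) : ∃ s, S s ∧ G.dist s x ≠ G.dist s y := by
  by_contra hcon
  push Not at hcon
  have hle : ∀ a b : V, (∀ s, S s → G.dist s a = G.dist s b) → G.dist r a ≤ G.dist r b := by
    intro a b hab
    obtain ⟨z, hz, hza⟩ := hT a
    have h1 := anc_desc hc hb hza
    have h2 := hab z hz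
    have h3 := dist_le_add hc r b z
    unfold Desc at h1
    rw [dist_comm (u := z) (v := a), dist_comm (u := z) (v := b)] at h2
    omega
  have hl : G.dist r x = G.dist r y :=
    le_antisymm (hle x y hcon) (hle y x (fun s hs => (hcon s hs).symm))
  have hiff : ∀ s, S s → (Desc G r s x ↔ Desc G r s y) := by
    intro s hs
    have h2 := hcon s hs
    unfold Desc
    rw [dist_comm (u := s) (v := x), dist_comm (u := s) (v := y)] at h2
    rw [hl, h2]
  obtain ⟨z, hz, hzx⟩ := hT x
  obtain ⟨s, hs, h | h⟩ := core hc hb hLow (X := fun v => v = x) (Y := fun v => v = y)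
    (K := G.dist r y) (by rintro _ rfl; exact hl) (by rintro _ rfl; rfl)
    (by rintro v rfl; exact hxy) ⟨z, hz, x, rfl, hzx⟩
  · obtain ⟨⟨_, rfl, h1⟩, h2⟩ := h
    exact h2 y rfl ((hiff s hs).mp h1)
  · obtain ⟨⟨_, rfl, h1⟩, h2⟩ := h
    exact h2 x rfl ((hiff s hs).mpr h1)

/-- distance from `s` to the edge `ab` -/
noncomputable def dE (G : SimpleGraph V) (s a b : V) : ℕ := min (G.dist s a) (G.dist s b)

/-- top level of the edge `ab` -/
noncomputable def lev (G : SimpleGraph V) (r a b : V) : ℕ := max (G.dist r a) (G.dist r b)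

/-- `v` is a top endpoint of the edge `ab` -/
def Top (G : SimpleGraph V) (r a b v : V) : Prop := (v = a ∨ v = b) ∧ G.dist r v = lev G r a b

lemma exists_top (G : SimpleGraph V) (r a b : V) : ∃ v, Top G r a b v := by
  unfold Top lev
  rcases le_total (G.dist r a) (G.dist r b) with h | h
  · exact ⟨b, Or.inr rfl, by omega⟩
  · exact ⟨a, Or.inl rfl, by omega⟩

lemma lev_le (hc : G.Connected) (r a b s : V) : G.dist r s ≤ lev G r a b + dE G s a b := by
  have h1 := dist_le_add hc r a s
  have h2 := dist_le_add hc r b s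
  unfold lev dE
  rw [dist_comm (u := s) (v := a), dist_comm (u := s) (v := b)]
  omega

lemma desc_top (hc : G.Connected) {r a b v s : V} (hv : Top G r a b v) (hs : Desc G r s v) :
    G.dist r s = lev G r a b + dE G s a b := by
  have h1 := lev_le hc r a b s
  have h2 : dE G s a b ≤ G.dist v s := by
    unfold dE
    rcases hv.1 with rfl | rfl
    · rw [dist_comm (u := v)]; omega
    · rw [dist_comm (u := v)]; omega
  have h3 := hv.2
  unfold Desc at hs
  omega

lemma top_of_eq (hc : G.Connected) {r a b s : V}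
    (h : G.dist r s = lev G r a b + dE G s a b) : ∃ v, Top G r a b v ∧ Desc G r s v := by
  have h1 := dist_le_add hc r a s
  have h2 := dist_le_add hc r b s
  unfold lev dE at h
  rw [dist_comm (u := s) (v := a), dist_comm (u := s) (v := b)] at h
  by_cases h3 : G.dist a s ≤ G.dist b s
  · refine ⟨a, ⟨Or.inl rfl, ?_⟩, ?_⟩
    · unfold lev; omega
    · unfold Desc; omega
  · refine ⟨b, ⟨Or.inr rfl, ?_⟩, ?_⟩
    · unfold lev; omega
    · unfold Desc; omega

/-- Edge version, first part: two edges that `S` does not separate have the same top level and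
share a top endpoint. -/
theorem edge_share_top (hc : G.Connected) {par : V → V} {r : V} (hb : IsBFS G r par)
    {S : V → Prop} (hLow : ∀ b, Low G r par b → S b) (hT : ∀ x, ∃ z, S z ∧ Anc par x z)
    {a b c d : V} (hcon : ∀ s, S s → dE G s a b = dE G s c d) :
    lev G r a b = lev G r c d ∧ ∃ v, Top G r a b v ∧ Top G r c d v := by
  have hle : ∀ a b c d : V, (∀ s, S s → dE G s a b = dE G s c d) →
      lev G r a b ≤ lev G r c d := by
    intro a b c d h
    obtain ⟨v, hv⟩ := exists_top G r a b
    obtain ⟨z, hz, hzv⟩ := hT v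
    have h1 := desc_top hc hv (anc_desc hc hb hzv)
    have h2 := lev_le hc r c d z
    have h3 := h z hz
    omega
  have hl : lev G r a b = lev G r c d :=
    le_antisymm (hle a b c d hcon) (hle c d a b (fun s hs => (hcon s hs).symm))
  refine ⟨hl, ?_⟩
  by_contra hno
  push Not at hno
  obtain ⟨v, hv⟩ := exists_top G r a b
  obtain ⟨z, hz, hzv⟩ := hT v
  obtain ⟨s, hs, h | h⟩ := core hc hb hLow (X := Top G r a b) (Y := Top G r c d)
    (K := lev G r a b) (fun x hx => hx.2) (fun y hy => by rw [hl]; exact hy.2)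
    (fun v hv => hno v hv) ⟨z, hz, v, hv, hzv⟩
  · obtain ⟨⟨x, hx, h1⟩, h2⟩ := h
    have h3 := desc_top hc hx h1
    have h4 : G.dist r s = lev G r c d + dE G s c d := by rw [← hl, ← hcon s hs]; exact h3
    obtain ⟨y, hy, h5⟩ := top_of_eq hc h4
    exact h2 y hy h5
  · obtain ⟨⟨x, hx, h1⟩, h2⟩ := h
    have h3 := desc_top hc hx h1
    have h4 : G.dist r s = lev G r a b + dE G s a b := by rw [hl, hcon s hs]; exact h3
    obtain ⟨y, hy, h5⟩ := top_of_eq hc h4
    exact h2 y hy h5

lemma dE_comm (G : SimpleGraph V) (s a b : V) : dE G s a b = dE G s b a := min_comm _ _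

lemma lev_comm (G : SimpleGraph V) (r a b : V) : lev G r a b = lev G r b a := max_comm _ _

/-- Edge version, second part: normal form for a pair of distinct edges that is not separated.
The edges are `vp` and `vq` with `v` on the top level of both; one of them is the tree edge at
`v` and the other one is horizontal, or both of them are horizontal. -/
theorem edge_normal (hc : G.Connected) {par : V → V} {r : V} (hb : IsBFS G r par)
    {S : V → Prop} (hLow : ∀ b, Low G r par b → S b) (hT : ∀ x, ∃ z, S z ∧ Anc par x z)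
    {a b c d : V} (hab : G.Adj a b) (hcd : G.Adj c d) (hne : s(a, b) ≠ s(c, d))
    (hcon : ∀ s, S s → dE G s a b = dE G s c d) :
    ∃ v p q, G.Adj v p ∧ G.Adj v q ∧ p ≠ q ∧ G.dist r v = G.dist r q ∧
      (∀ s, S s → dE G s v p = dE G s v q) ∧
      ((p = par v ∧ v ≠ r) ∨ G.dist r v = G.dist r p) := by
  obtain ⟨hl, v, hv1, hv2⟩ := edge_share_top hc hb hLow hT hcon
  -- orient both edges at `v`
  obtain ⟨p, hvp, hp, hpl, hpe⟩ : ∃ p, G.Adj v p ∧ s(a, b) = s(v, p) ∧
      G.dist r p ≤ G.dist r v ∧ ∀ s, dE G s a b = dE G s v p := by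
    rcases hv1.1 with rfl | rfl
    · exact ⟨b, hab, rfl, by rw [hv1.2]; exact le_max_right _ _, fun s => rfl⟩
    · exact ⟨a, hab.symm, Sym2.eq_swap, by rw [hv1.2]; exact le_max_left _ _,
        fun s => dE_comm _ _ _ _⟩
  obtain ⟨q, hvq, hq, hql, hqe⟩ : ∃ q, G.Adj v q ∧ s(c, d) = s(v, q) ∧
      G.dist r q ≤ G.dist r v ∧ ∀ s, dE G s c d = dE G s v q := by
    rcases hv2.1 with rfl | rfl
    · exact ⟨d, hcd, rfl, by rw [hv2.2]; exact le_max_right _ _, fun s => rfl⟩
    · exact ⟨c, hcd.symm, Sym2.eq_swap, by rw [hv2.2]; exact le_max_left _ _,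
        fun s => dE_comm _ _ _ _⟩
  have hpq : p ≠ q := by
    rintro rfl
    exact hne (hp.trans hq.symm)
  have hcon' : ∀ s, S s → dE G s v p = dE G s v q := by
    intro s hs
    rw [← hpe, ← hqe]
    exact hcon s hs
  -- a lower neighbour different from the parent separates
  have key : ∀ p q : V, G.Adj v p → G.Adj v q → p ≠ q →
      (∀ s, S s → dE G s v p = dE G s v q) → G.dist r v = G.dist r p + 1 →
      p = par v ∧ v ≠ r := by
    intro p q hp hq hpq hcon hpl
    have hvr : v ≠ r := by
      rintro rfl
      simp at hpl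
    refine ⟨?_, hvr⟩
    by_contra hpar
    have hpv : par p ≠ v := by
      intro h
      by_cases hpr : p = r
      · subst hpr
        rw [hb.root] at h
        exact hvr h.symm
      · have := hb.dist p hpr
        rw [h] at this
        omega
    have hlow : Low G r par p := ⟨v, ⟨hp, fun h => hpar h.symm, hpv⟩, hpl⟩
    have h1 := hcon p (hLow p hlow)
    have h2 : G.dist p p = 0 := dist_self
    have h3 : 0 < G.dist p v := hc.pos_dist_of_ne hp.ne'
    have h4 : 0 < G.dist p q := hc.pos_dist_of_ne hpq
    unfold dE at h1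
    omega
  have hadjlev : ∀ p, G.Adj v p → G.dist r p ≤ G.dist r v →
      G.dist r v = G.dist r p ∨ G.dist r v = G.dist r p + 1 := by
    intro p hp hple
    have := dist_adj_le hc (u := r) hp.symm
    omega
  rcases hadjlev p hvp hpl with h1 | h1 <;> rcases hadjlev q hvq hql with h2 | h2
  · exact ⟨v, p, q, hvp, hvq, hpq, h2, hcon', Or.inr h1⟩
  · have h3 := key q p hvq hvp hpq.symm (fun s hs => (hcon' s hs).symm) h2
    exact ⟨v, q, p, hvq, hvp, hpq.symm, h1, fun s hs => (hcon' s hs).symm, Or.inl h3⟩
  · have h3 := key p q hvp hvq hpq hcon' h1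
    exact ⟨v, p, q, hvp, hvq, hpq, h2, hcon', Or.inl h3⟩
  · have h3 := key p q hvp hvq hpq hcon' h1
    have h4 := key q p hvq hvp hpq.symm (fun s hs => (hcon' s hs).symm) h2
    exact absurd (h3.1.trans h4.1.symm) hpq

/-- An edge with both endpoints on the same level is a non-tree edge. -/
lemma horizontal_nt {par : V → V} {r : V} (hb : IsBFS G r par) {u v : V} (h : G.Adj u v)
    (hl : G.dist r u = G.dist r v) : (NT G par).Adj u v := by
  have key : ∀ u v : V, G.Adj u v → G.dist r u = G.dist r v → par u ≠ v := by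
    intro u v h hl hp
    by_cases hu : u = r
    · subst hu
      rw [hb.root] at hp
      exact h.ne hp
    · have := hb.dist u hu
      rw [hp] at this
      omega
  exact ⟨h, key u v h hl, key v u h.symm hl.symm⟩

/-- If `q ∈ S` then the pair `vp`, `vq` is separated (`p ≠ q`). -/
lemma sep_of_mem (hc : G.Connected) {v p q : V} (hvq : G.Adj v q) (hpq : p ≠ q) :
    dE G q v p ≠ dE G q v q := by
  have h2 : G.dist q q = 0 := dist_self
  have h3 : 0 < G.dist q v := hc.pos_dist_of_ne hvq.ne'
  have h4 : 0 < G.dist q p := hc.pos_dist_of_ne hpq.symm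
  unfold dE
  omega

/-- Edge version, case (i): all endpoints of non-tree edges. -/
theorem edge_resolve_i (hc : G.Connected) {par : V → V} {r : V} (hb : IsBFS G r par)
    {S : V → Prop} (hT : ∀ x, ∃ z, S z ∧ Anc par x z)
    (hS : ∀ u v, (NT G par).Adj u v → S u)
    {a b c d : V} (hab : G.Adj a b) (hcd : G.Adj c d) (hne : s(a, b) ≠ s(c, d)) :
    ∃ s, S s ∧ dE G s a b ≠ dE G s c d := by
  by_contra hcon
  push Not at hcon
  have hLow : ∀ b, Low G r par b → S b := by
    rintro b ⟨a, h1, -⟩
    exact hS b a h1.symm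
  obtain ⟨v, p, q, hvp, hvq, hpq, hlq, hc', -⟩ := edge_normal hc hb hLow hT hab hcd hne hcon
  exact sep_of_mem hc hvq hpq (hc' q (hS q v (horizontal_nt hb hvq hlq).symm))

/-- Edge version, case (ii): the root belongs to `S` and the non-tree edges form a matching. -/
theorem edge_resolve_ii (hc : G.Connected) {par : V → V} {r : V} (hb : IsBFS G r par)
    {S : V → Prop} (hLow : ∀ b, Low G r par b → S b) (hT : ∀ x, ∃ z, S z ∧ Anc par x z)
    (hr : S r) (hM : ∀ v p q, (NT G par).Adj v p → (NT G par).Adj v q → p = q)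
    {a b c d : V} (hab : G.Adj a b) (hcd : G.Adj c d) (hne : s(a, b) ≠ s(c, d)) :
    ∃ s, S s ∧ dE G s a b ≠ dE G s c d := by
  by_contra hcon
  push Not at hcon
  obtain ⟨v, p, q, hvp, hvq, hpq, hlq, hc', h⟩ := edge_normal hc hb hLow hT hab hcd hne hcon
  rcases h with ⟨rfl, hvr⟩ | h
  · have h1 := hc' r hr
    have h2 := hb.dist v hvr
    unfold dE at h1
    omega
  · exact hpq (hM v p q (horizontal_nt hb hvp h) (horizontal_nt hb hvq hlq))

/-- Edge version, case (iii): the non-tree edges form a matching and every horizontal edge has an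
endpoint that is a leaf. -/
theorem edge_resolve_iii (hc : G.Connected) {par : V → V} {r : V} (hb : IsBFS G r par)
    {S : V → Prop} (hLow : ∀ b, Low G r par b → S b) (hT : ∀ x, ∃ z, S z ∧ Anc par x z)
    (hLeaf : ∀ w, Leaf r par w → S w)
    (hM : ∀ v p q, (NT G par).Adj v p → (NT G par).Adj v q → p = q)
    (hH : ∀ u v, G.Adj u v → G.dist r u = G.dist r v → Leaf r par u ∨ Leaf r par v)
    {a b c d : V} (hab : G.Adj a b) (hcd : G.Adj c d) (hne : s(a, b) ≠ s(c, d)) :
    ∃ s, S s ∧ dE G s a b ≠ dE G s c d := by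
  by_contra hcon
  push Not at hcon
  obtain ⟨v, p, q, hvp, hvq, hpq, hlq, hc', h⟩ := edge_normal hc hb hLow hT hab hcd hne hcon
  rcases h with ⟨rfl, hvr⟩ | h
  · -- `vp` is the tree edge at `v`, `vq` is horizontal
    by_cases hq : S q
    · exact sep_of_mem hc hvq hpq (hc' q hq)
    · have hvleaf : Leaf r par v := by
        rcases hH v q hvq hlq with h | h
        · exact h
        · exact absurd (hLeaf q h) hq
      obtain ⟨z, hz, hzq⟩ := hT q
      have hzq' := anc_desc hc hb hzq
      have h1 := hc' z hz
      have htop : Top G r v q q := ⟨Or.inr rfl, by unfold lev; omega⟩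
      have h2 := desc_top hc htop hzq'
      have hl : lev G r v q = lev G r v (par v) := by
        have := hb.dist v hvr
        unfold lev
        omega
      have h3 : G.dist r z = lev G r v (par v) + dE G z v (par v) := by
        rw [← hl, h1]; exact h2
      obtain ⟨t, ht, hzt⟩ := top_of_eq hc h3
      have htv : t = v := by
        rcases ht.1 with h | h
        · exact h
        · exfalso
          have h4 := ht.2
          have h5 := hb.dist v hvr
          rw [h] at h4
          unfold lev at h4
          omega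
      subst htv
      have hzt' : t ≠ z := by
        rintro rfl
        have := desc_eq hc hzq' (by omega)
        exact hvq.ne' this
      -- go from `t` one step up towards `z`
      obtain ⟨u, htu, hu⟩ := exists_step hc hzt'.symm
      have h6 := dist_le_add hc r u z
      have h7 := dist_adj_le hc (u := r) htu
      have hul : G.dist r u = G.dist r t + 1 := by
        unfold Desc at hzt
        rw [dist_comm (u := z) (v := u), dist_comm (u := z) (v := t)] at hu
        omega
      have hur : u ≠ r := by
        rintro rfl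
        simp at hul
      have hnt : (NT G par).Adj t u := by
        refine ⟨htu, ?_, hvleaf.2 u hur⟩
        intro h
        have := hb.dist t hvr
        rw [h] at this
        omega
      have hqu : q = u := hM t q u (horizontal_nt hb hvq hlq) hnt
      subst hqu
      omega
  · exact hpq (hM v p q (horizontal_nt hb hvp h) (horizontal_nt hb hvq hlq))

end Pool.Agent.MD717
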