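import Mathlib
import Pool.Agent.MD717.Resolve

/-!
# Counting non-tree edges and choosing a good root
-/

set_option autoImplicit false

namespace Pool.Agent.MD717

open SimpleGraph Finset

variable {V : Type*} [Fintype V] {G : SimpleGraph V}

/-- The number of non-tree edges is the cyclomatic number. -/
lemma card_nt [DecidableEq V] [DecidableRel G.Adj] {par : V → V} {r : V} (hb : IsBFS G r par)
    [DecidableRel (NT G par).Adj] :
    #(NT G par).edgeFinset + (Fintype.card V - 1) = #G.edgeFinset := by
  have h1 : G.edgeFinset = (NT G par).edgeFinset ∪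
      (univ.erase r).image (fun v => s(v, par v)) := by
    ext e
    induction e with
    | h x y =>
      simp only [mem_edgeFinset, mem_edgeSet, mem_union, mem_image, mem_erase, mem_univ, and_true]
      constructor
      · intro h
        by_cases hx : par x = y
        · right
          refine ⟨x, ?_, by rw [hx]⟩
          rintro rfl
          rw [hb.root] at hx
          exact h.ne hx
        · by_cases hy : par y = x
          · right
            refine ⟨y, ?_, by rw [hy]; exact Sym2.eq_swap⟩
            rintro rfl
            rw [hb.root] at hy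
            exact h.ne' hy
          · left
            exact ⟨h, hx, hy⟩
      · rintro (h | ⟨v, hv, h⟩)
        · exact h.1
        · have := hb.adj v hv
          rw [← mem_edgeSet, ← h]
          exact this
  have h2 : Disjoint (NT G par).edgeFinset ((univ.erase r).image (fun v => s(v, par v))) := by
    rw [Finset.disjoint_left]
    intro e he he'
    rw [mem_image] at he'
    obtain ⟨v, hv, rfl⟩ := he'
    rw [mem_edgeFinset, mem_edgeSet] at he
    exact he.2.1 rfl
  have h3 : #((univ.erase r).image (fun v => s(v, par v))) = Fintype.card V - 1 := by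
    rw [card_image_of_injOn, card_erase_of_mem (mem_univ r), card_univ]
    intro v hv w hw hvw
    simp only [coe_erase, coe_univ, Set.mem_sdiff, Set.mem_univ, Set.mem_singleton_iff,
      true_and] at hv hw
    simp only [Sym2.eq_iff] at hvw
    rcases hvw with h | h
    · exact h.1
    · exfalso
      have h4 := hb.dist v hv
      have h5 := hb.dist w hw
      rw [h.2] at h4
      rw [← h.1] at h5
      omega
  rw [h1, card_union_of_disjoint h2, h3]

/-- A good pair: `v` has degree at least three and two neighbours that are not farther from `r`. -/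
lemma exists_good (hc : G.Connected) [DecidableEq V] [DecidableRel G.Adj]
    (h2 : ∀ v : V, 2 ≤ G.degree v) (h3 : ∃ v : V, 3 ≤ G.degree v) :
    ∃ r v u w : V, v ≠ r ∧ 3 ≤ G.degree v ∧ G.Adj v u ∧ G.Adj v w ∧ u ≠ w ∧
      G.dist r u ≤ G.dist r v ∧ G.dist r w ≤ G.dist r v := by
  classical
  obtain ⟨r, hr⟩ := h3
  obtain ⟨par, hb⟩ := exists_bfs hc r
  -- there is a non-tree edge
  have hex : ∃ a b, (NT G par).Adj a b := by
    obtain ⟨z, -, hmax⟩ := Finset.exists_max_image (univ : Finset V) (fun z => G.dist r z)
      ⟨r, mem_univ r⟩
    have hzr : z ≠ r := by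
      rintro rfl
      have : 0 < G.degree z := by omega
      rw [degree_pos_iff_exists_adj] at this
      obtain ⟨u, hu⟩ := this
      have h4 := hmax u (mem_univ u)
      have h5 : G.dist z u = 1 := dist_eq_one_iff_adj.mpr hu
      rw [dist_self] at h4
      omega
    have : 1 < #(G.neighborFinset z) := by
      rw [card_neighborFinset_eq_degree]
      exact h2 z
    obtain ⟨w, hw, hne⟩ := Finset.exists_mem_ne this (par z)
    rw [mem_neighborFinset] at hw
    refine ⟨z, w, hw, hne.symm, ?_⟩
    intro h
    have hwr : w ≠ r := by
      rintro rfl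
      rw [hb.root] at h
      exact hzr h.symm
    have h4 := hb.dist w hwr
    have h5 := hmax w (mem_univ w)
    rw [h] at h4
    omega
  -- the deepest vertex with a non-tree edge in its subtree
  obtain ⟨q, hq, hmax⟩ := Finset.exists_max_image
    (univ.filter (fun q => ∃ a b, (NT G par).Adj a b ∧ Anc par q a ∧ Anc par q b))
    (fun z => G.dist r z)
    ⟨r, by
      obtain ⟨a, b, hab⟩ := hex
      simp only [mem_filter, mem_univ, true_and]
      exact ⟨a, b, hab, root_anc hc hb a, root_anc hc hb b⟩⟩
  simp only [mem_filter, mem_univ, true_and] at hq hmax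
  obtain ⟨a, b, hab, hqa, hqb⟩ := hq
  have hne : ∀ a b, (NT G par).Adj a b → Anc par q b → a ≠ q := by
    rintro a b hab hqb rfl
    have hb1 : a ≠ b := hab.1.ne
    have hbr : b ≠ r := by
      rintro rfl
      exact hb1 (anc_root hb hqb)
    have h4 := anc_desc hc hb (hqb.par_of_ne hb1)
    have h5 := hb.dist b hbr
    have h6 := dist_adj_le hc (u := r) hab.1
    have h7 := desc_eq hc h4 (by omega)
    exact hab.2.2 h7.symm
  have haq : a ≠ q := hne a b hab hqb
  have hbq : b ≠ q := hne b a hab.symm hqa
  -- children of q towards a and b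
  have child : ∀ a, Anc par q a → a ≠ q → ∃ c, c ≠ r ∧ par c = q ∧ Anc par c a := by
    intro a ha
    obtain ⟨i, hi⟩ := ha
    induction i generalizing a with
    | zero => intro h; exact absurd hi h
    | succ i ih =>
      intro hne
      rw [Function.iterate_succ_apply] at hi
      by_cases hpq : par a = q
      · refine ⟨a, ?_, hpq, Anc.refl _ _⟩
        rintro rfl
        rw [hb.root] at hpq
        exact hne hpq
      · obtain ⟨c, hc1, hc2, hc3⟩ := ih (par a) hi hpq
        exact ⟨c, hc1, hc2, hc3.of_par⟩
  obtain ⟨c₁, hc₁r, hc₁, hc₁a⟩ := child a hqa haq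
  obtain ⟨c₂, hc₂r, hc₂, hc₂b⟩ := child b hqb hbq
  have hl₁ := hb.dist c₁ hc₁r
  have hl₂ := hb.dist c₂ hc₂r
  rw [hc₁] at hl₁
  rw [hc₂] at hl₂
  have hcc : c₁ ≠ c₂ := by
    rintro rfl
    have := hmax c₁ ⟨a, b, hab, hc₁a, hc₂b⟩
    omega
  have hadj₁ : G.Adj q c₁ := by
    have := hb.adj c₁ hc₁r
    rw [hc₁] at this
    exact this.symm
  have hadj₂ : G.Adj q c₂ := by
    have := hb.adj c₂ hc₂r
    rw [hc₂] at this
    exact this.symm
  have hdeg : 3 ≤ G.degree q := by
    by_cases hqr : q = r
    · rw [hqr]; exact hr
    · have h4 := hb.dist q hqr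
      have h5 := hb.adj q hqr
      have h6 : ({par q, c₁, c₂} : Finset V) ⊆ G.neighborFinset q := by
        intro x hx
        simp only [mem_insert, mem_singleton] at hx
        rw [mem_neighborFinset]
        rcases hx with rfl | rfl | rfl
        · exact h5
        · exact hadj₁
        · exact hadj₂
      have h7 : par q ≠ c₁ := by
        intro h
        rw [h] at h4
        omega
      have h8 : par q ≠ c₂ := by
        intro h
        rw [h] at h4
        omega
      have h9 : #({par q, c₁, c₂} : Finset V) = 3 := by
        rw [card_eq_three]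
        exact ⟨par q, c₁, c₂, h7, h8, hcc, rfl⟩
      rw [← card_neighborFinset_eq_degree, ← h9]
      exact card_le_card h6
  -- suppose that no good pair exists at q
  by_contra hbad
  push Not at hbad
  have bad : ∀ p u w : V, q ≠ p → G.Adj q u → G.Adj q w → u ≠ w →
      G.dist p u ≤ G.dist p q → ¬ G.dist p w ≤ G.dist p q := by
    intro p u w h4 h5 h6 h7 h8 h9
    have := hbad p q u w h4 hdeg h5 h6 h7 h8
    omega
  -- propagation along edges avoiding q
  have prop : ∀ p p' c : V, G.Adj p p' → p ≠ q → p' ≠ q → G.Adj q c →
      G.dist p c ≤ G.dist p q → G.dist p' c ≤ G.dist p' q := by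
    intro p p' c hpp hp hp' hqc hle
    by_contra hlt
    push Not at hlt
    obtain ⟨t, hqt, ht⟩ := exists_step hc hp'
    have htc : c ≠ t := by
      rintro rfl
      omega
    have h5 := dist_adj_le hc (u := t) hpp.symm
    have h6 := dist_adj_le hc (u := c) hpp
    by_cases h4 : G.dist p' q ≤ G.dist p q
    · refine bad p c t hp.symm hqc hqt htc hle ?_
      rw [dist_comm (u := p) (v := t)]
      rw [dist_comm (u := t) (v := p')] at h5
      omega
    · rw [dist_comm (u := p') (v := c)] at hlt
      rw [dist_comm (u := c) (v := p)] at h6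
      omega
  -- everything in the subtree of c is not farther from c than from q
  have sub : ∀ c : V, c ≠ r → par c = q → ∀ w, Anc par c w → G.dist w c ≤ G.dist w q := by
    intro c hcr hcq w hw
    obtain ⟨i, hi⟩ := hw
    have hl := hb.dist c hcr
    rw [hcq] at hl
    have hqc : G.Adj q c := by
      have := hb.adj c hcr
      rw [hcq] at this
      exact this.symm
    induction i generalizing w with
    | zero =>
      have : w = c := hi
      subst this
      simp
    | succ i ih =>
      by_cases hwr : w = r
      · have : c = r := by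
          apply anc_root hb (x := c)
          exact ⟨i + 1, by rw [← hwr]; exact hi⟩
        exact absurd this hcr
      · have h4 := anc_desc hc hb (x := c) (z := w) ⟨i + 1, hi⟩
        rw [Function.iterate_succ_apply] at hi
        have h5 := ih (par w) hi
        have h6 := anc_desc hc hb (x := c) (z := par w) ⟨i, hi⟩
        refine prop (par w) w c (hb.adj w hwr).symm ?_ ?_ hqc h5
        · rintro h
          unfold Desc at h6
          rw [h] at h6
          omega
        · rintro rfl
          unfold Desc at h4
          omega
  have h5 := sub c₁ hc₁r hc₁ a hc₁a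
  have h6 := sub c₂ hc₂r hc₂ b hc₂b
  have h7 := prop a b c₁ hab.1 haq hbq hadj₁ h5
  exact bad b c₁ c₂ hbq.symm hadj₁ hadj₂ hcc h7 h6

end Pool.Agent.MD717
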