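import Mathlib

/-!
# A connected finite graph with all degrees equal to two is a cycle
-/

set_option autoImplicit false

namespace Pool.Agent.MD717

open SimpleGraph Finset

variable {V : Type*} [Fintype V] [DecidableEq V] {G : SimpleGraph V} [DecidableRel G.Adj]

theorem iso_cycle (hc : G.Connected) (h : ∀ v : V, G.degree v = 2) :
    Nonempty (cycleGraph (Fintype.card V) ≃g G) := by
  have hcyc : G.IsCycles := by
    intro v _
    rw [Set.ncard_eq_toFinset_card', ← h v, ← card_neighborFinset_eq_degree]
    rfl
  obtain ⟨v₀⟩ := hc.nonempty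
  have hne : (G.neighborSet v₀).Nonempty := by
    obtain ⟨w, hw⟩ := (degree_pos_iff_exists_adj G v₀).mp (by rw [h v₀]; norm_num)
    exact ⟨w, hw⟩
  obtain ⟨p, hp, hps⟩ := hcyc.exists_cycle_toSubgraph_verts_eq_connectedComponentSupp
    (c := G.connectedComponentMk v₀) (v := v₀) (by simp) hne
  have hall : ∀ x, x ∈ p.support := by
    intro x
    rw [← Walk.mem_verts_toSubgraph, hps, ConnectedComponent.mem_supp_iff,
      ConnectedComponent.eq]
    exact hc.preconnected x v₀
  have hall' : ∀ x, x ∈ p.support.tail := by
    intro x
    have hx := hall x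
    rw [Walk.mem_support_iff] at hx
    rcases hx with rfl | hx
    · exact Walk.end_mem_tail_support hp.not_nil
    · exact hx
  have hlen : p.length = Fintype.card V := by
    have h1 : p.support.tail.toFinset = univ := by
      ext x
      simp [hall' x]
    have h2 : #(p.support.tail.toFinset) = p.support.tail.length :=
      List.toFinset_card_of_nodup hp.support_nodup
    rw [h1, card_univ] at h2
    rw [h2, List.length_tail, Walk.length_support]
    simp
  have h3 : 2 < Fintype.card V := by
    rw [← hlen]
    exact hp.three_le_length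
  obtain ⟨f⟩ := (cycleGraph_isContained_iff h3).mpr ⟨v₀, p, hp, hlen⟩
  have hbij : Function.Bijective f := by
    rw [Fintype.bijective_iff_injective_and_card]
    exact ⟨f.injective, by simp⟩
  have hdeg : ∀ x, (cycleGraph (Fintype.card V)).degree x = 2 := by
    obtain ⟨n, hn⟩ : ∃ n, Fintype.card V = n + 3 := ⟨Fintype.card V - 3, by omega⟩
    rw [hn]
    intro x
    exact cycleGraph_degree_three_le
  refine ⟨⟨Equiv.ofBijective f hbij, ?_⟩⟩
  intro a b
  change G.Adj (f a) (f b) ↔ _
  constructor
  · intro hab
    have h4 : ((cycleGraph (Fintype.card V)).neighborFinset a).image f =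
        G.neighborFinset (f a) := by
      apply eq_of_subset_of_card_le
      · intro x hx
        rw [mem_image] at hx
        obtain ⟨y, hy, rfl⟩ := hx
        rw [mem_neighborFinset] at hy ⊢
        exact f.toHom.map_adj hy
      · rw [card_image_of_injective _ hbij.1, card_neighborFinset_eq_degree,
          card_neighborFinset_eq_degree, h, hdeg]
    have h5 : f b ∈ G.neighborFinset (f a) := by rw [mem_neighborFinset]; exact hab
    rw [← h4, mem_image] at h5
    obtain ⟨y, hy, hyb⟩ := h5
    have := hbij.1 hyb
    subst this
    rw [mem_neighborFinset] at hy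
    exact hy
  · intro hab
    exact f.toHom.map_adj hab

theorem exists_three_le_degree (hc : G.Connected) (h2 : ∀ v : V, 2 ≤ G.degree v)
    (hnc : ∀ n : ℕ, IsEmpty (cycleGraph n ≃g G)) : ∃ v : V, 3 ≤ G.degree v := by
  by_contra hcon
  push Not at hcon
  have h : ∀ v : V, G.degree v = 2 := fun v => by
    have := h2 v
    have := hcon v
    omega
  obtain ⟨e⟩ := iso_cycle hc h
  exact (hnc _).false e

end Pool.Agent.MD717
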