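import Mathlib
import Pool.Agent.MD717.Count

/-!
# Both metric dimensions are at most `2c - 1`
-/

set_option autoImplicit false

namespace Pool.Agent.MD717

open SimpleGraph Finset

variable {V : Type*} [Fintype V] [DecidableEq V] {G : SimpleGraph V} [DecidableRel G.Adj]

section

open Classical in
/-- The landmark set: lower endpoints of vertical non-tree edges and leaves of the tree. -/
noncomputable def S0 (G : SimpleGraph V) (r : V) (par : V → V) : Finset V :=
  univ.filter (fun x => Low G r par x ∨ Leaf r par x)

lemma mem_S0 {r : V} {par : V → V} {x : V} :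
    x ∈ S0 G r par ↔ Low G r par x ∨ Leaf r par x := by
  classical
  simp [S0]

lemma deg_pos_of_mem {r : V} {par : V → V} (hb : IsBFS G r par)
    (h2 : ∀ v : V, 2 ≤ G.degree v) [DecidableRel (NT G par).Adj] {x : V}
    (hx : x ∈ S0 G r par) : 0 < (NT G par).degree x := by
  rw [degree_pos_iff_exists_adj]
  rw [mem_S0] at hx
  rcases hx with ⟨a, ha, -⟩ | hx
  · exact ⟨a, ha.symm⟩
  · have : 1 < #(G.neighborFinset x) := by
      rw [card_neighborFinset_eq_degree]
      exact h2 x
    obtain ⟨w, hw, hne⟩ := Finset.exists_mem_ne this (par x)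
    rw [mem_neighborFinset] at hw
    refine ⟨w, hw, hne.symm, ?_⟩
    by_cases hwr : w = r
    · rw [hwr, hb.root]
      exact hx.1.symm
    · exact hx.2 w hwr

/-- A vertex of degree at least three with two non-upper neighbours is incident with a non-tree
edge, and if that edge is unique then the vertex is no landmark. -/
lemma good_not_mem {r v u w : V} {par : V → V} (hb : IsBFS G r par)
    (hvr : v ≠ r) (hv : 3 ≤ G.degree v) (hu : G.Adj v u) (hw : G.Adj v w) (huw : u ≠ w)
    (hul : G.dist r u ≤ G.dist r v) (hwl : G.dist r w ≤ G.dist r v)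
    [DecidableRel (NT G par).Adj] :
    0 < (NT G par).degree v ∧ ((NT G par).degree v ≤ 1 → v ∉ S0 G r par) := by
  have hpar : ∀ t, G.dist r t ≤ G.dist r v → par t ≠ v := by
    intro t ht h
    by_cases htr : t = r
    · rw [htr, hb.root] at h
      exact hvr h.symm
    · have := hb.dist t htr
      rw [h] at this
      omega
  obtain ⟨t, ht, htl, htp⟩ : ∃ t, G.Adj v t ∧ G.dist r t ≤ G.dist r v ∧ par v ≠ t := by
    by_cases h : par v = u
    · exact ⟨w, hw, hwl, fun h' => huw (h.symm.trans h')⟩
    · exact ⟨u, hu, hul, h⟩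
  have hnt : (NT G par).Adj v t := ⟨ht, htp, hpar t htl⟩
  refine ⟨(degree_pos_iff_exists_adj _ _).mpr ⟨t, hnt⟩, ?_⟩
  intro hle hmem
  have huniq : ∀ s, (NT G par).Adj v s → s = t := by
    intro s hs
    rw [← card_neighborFinset_eq_degree, card_le_one] at hle
    exact hle s (by rw [mem_neighborFinset]; exact hs) t (by rw [mem_neighborFinset]; exact hnt)
  rw [mem_S0] at hmem
  rcases hmem with ⟨a, ha, hal⟩ | hleaf
  · have := huniq a ha.symm
    rw [this] at hal
    omega
  · -- a third neighbour is a child
    have h3 : 2 < #(G.neighborFinset v) := by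
      rw [card_neighborFinset_eq_degree]
      exact hv
    have h4 : ∃ s ∈ G.neighborFinset v, s ∉ ({par v, t} : Finset V) := by
      by_contra hcon
      push Not at hcon
      have h5 : G.neighborFinset v ⊆ {par v, t} := hcon
      have h6 := card_le_card h5
      have h7 : #({par v, t} : Finset V) ≤ 2 := card_le_two
      omega
    obtain ⟨s, hs, hs'⟩ := h4
    rw [mem_neighborFinset] at hs
    simp only [mem_insert, mem_singleton, not_or] at hs'
    have h5 : ¬ (NT G par).Adj v s := fun h => hs'.2 (huniq s h)
    apply h5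
    refine ⟨hs, fun h => hs'.1 h.symm, ?_⟩
    by_cases hsr : s = r
    · rw [hsr, hb.root]
      exact hvr.symm
    · exact hleaf.2 s hsr

lemma card_lt_sum {f : V → ℕ} {S : Finset V} (hS : ∀ x ∈ S, 0 < f x)
    {v : V} (hv : 0 < f v) (hv' : f v ≤ 1 → v ∉ S) : #S < ∑ x, f x := by
  have h1 : #S = ∑ x, (if x ∈ S then 1 else 0) := by
    rw [sum_ite_mem, univ_inter, card_eq_sum_ones]
  rw [h1]
  apply sum_lt_sum
  · intro x _
    split_ifs with h
    · exact hS x h
    · exact Nat.zero_le _
  · refine ⟨v, mem_univ v, ?_⟩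
    split_ifs with h
    · by_contra hcon
      exact hv' (by omega) h
    · exact hv

theorem main (hc : G.Connected) (h2 : ∀ v : V, 2 ≤ G.degree v) (h3 : ∃ v : V, 3 ≤ G.degree v) :
    (∃ S : Finset V,
      (#S : ℤ) ≤ 2 * ((#G.edgeFinset : ℤ) - (Fintype.card V : ℤ) + 1) - 1 ∧
      ∀ u v : V, u ≠ v → ∃ s ∈ S, G.dist s u ≠ G.dist s v) ∧
    (∃ S : Finset V,
      (#S : ℤ) ≤ 2 * ((#G.edgeFinset : ℤ) - (Fintype.card V : ℤ) + 1) - 1 ∧
      ∀ a b c d : V, G.Adj a b → G.Adj c d → s(a, b) ≠ s(c, d) →
        ∃ s ∈ S, min (G.dist s a) (G.dist s b) ≠ min (G.dist s c) (G.dist s d)) := by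
  classical
  obtain ⟨r, v, u, w, hvr, hv, hu, hw, huw, hul, hwl⟩ := exists_good hc h2 h3
  obtain ⟨par, hb⟩ := exists_bfs hc r
  have hcard := card_nt hb (G := G)
  have hsum := (NT G par).sum_degrees_eq_twice_card_edges
  have hpos : 0 < Fintype.card V := Fintype.card_pos_iff.mpr ⟨r⟩
  have hbound : ∀ S : Finset V, #S < ∑ x, (NT G par).degree x →
      (#S : ℤ) ≤ 2 * ((#G.edgeFinset : ℤ) - (Fintype.card V : ℤ) + 1) - 1 := by
    intro S hS
    rw [hsum] at hS
    omega
  obtain ⟨hg1, hg2⟩ := good_not_mem (par := par) hb hvr hv hu hw huw hul hwl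
  have hS0 : #(S0 G r par) < ∑ x, (NT G par).degree x :=
    card_lt_sum (fun x hx => deg_pos_of_mem hb h2 hx) hg1 hg2
  have hLow : ∀ b, Low G r par b → b ∈ S0 G r par := fun b hb => mem_S0.mpr (Or.inl hb)
  have hLeaf : ∀ b, Leaf r par b → b ∈ S0 G r par := fun b hb => mem_S0.mpr (Or.inr hb)
  have hrn : ∃ u, G.Adj r u := by
    have := h2 r
    exact (degree_pos_iff_exists_adj _ _).mp (by omega)
  have hT : ∀ x, ∃ z, z ∈ S0 G r par ∧ Anc par x z := by
    intro x
    obtain ⟨z, hz, hxz⟩ := exists_leaf hc hb hrn x
    exact ⟨z, hLeaf z hz, hxz⟩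
  refine ⟨⟨S0 G r par, hbound _ hS0, ?_⟩, ?_⟩
  · intro x y hxy
    exact vertex_resolve hc hb (S := fun x => x ∈ S0 G r par) hLow hT hxy
  · by_cases hM : ∃ x, 1 < (NT G par).degree x
    · -- case (i)
      obtain ⟨x₀, hx₀⟩ := hM
      refine ⟨univ.filter (fun x => 0 < (NT G par).degree x), hbound _ ?_, ?_⟩
      · apply card_lt_sum (v := x₀)
        · intro x hx
          exact (mem_filter.mp hx).2
        · omega
        · intro h
          omega
      · intro a b c d hab hcd hne
        apply edge_resolve_i hc hb
          (S := fun x => x ∈ univ.filter (fun x => 0 < (NT G par).degree x)) ?_ ?_ hab hcd hne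
        · intro x
          obtain ⟨z, hz, hxz⟩ := hT x
          exact ⟨z, by simpa using deg_pos_of_mem hb h2 hz, hxz⟩
        · intro x y hxy
          simp only [mem_filter, mem_univ, true_and]
          exact (degree_pos_iff_exists_adj _ _).mpr ⟨y, hxy⟩
    · push Not at hM
      have hM' : ∀ v p q, (NT G par).Adj v p → (NT G par).Adj v q → p = q := by
        intro v p q hp hq
        have := hM v
        rw [← card_neighborFinset_eq_degree, card_le_one] at this
        exact this p (by rw [mem_neighborFinset]; exact hp) q (by rw [mem_neighborFinset]; exact hq)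
      by_cases hH : ∀ u v, G.Adj u v → G.dist r u = G.dist r v → Leaf r par u ∨ Leaf r par v
      · -- case (iii)
        refine ⟨S0 G r par, hbound _ hS0, ?_⟩
        intro a b c d hab hcd hne
        exact edge_resolve_iii hc hb (S := fun x => x ∈ S0 G r par) hLow hT hLeaf hM' hH hab hcd hne
      · -- case (ii)
        push Not at hH
        obtain ⟨y₁, y₂, hy, hyl, hy₁, hy₂⟩ := hH
        have hnt := horizontal_nt hb hy hyl
        have hn₁ : y₁ ∉ S0 G r par := by
          rw [mem_S0]
          rintro (⟨a, ha, hal⟩ | h)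
          · have := hM' y₁ a y₂ ha.symm hnt
            rw [this] at hal
            omega
          · exact hy₁ h
        have hn₂ : y₂ ∉ S0 G r par := by
          rw [mem_S0]
          rintro (⟨a, ha, hal⟩ | h)
          · have := hM' y₂ a y₁ ha.symm hnt.symm
            rw [this] at hal
            omega
          · exact hy₂ h
        refine ⟨insert r (S0 G r par), hbound _ ?_, ?_⟩
        · have h4 : #(insert r (S0 G r par)) ≤ #(S0 G r par) + 1 := card_insert_le _ _
          have h5 : #(insert y₁ (S0 G r par)) = #(S0 G r par) + 1 := card_insert_of_notMem hn₁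
          have h6 : #(insert y₁ (S0 G r par)) < ∑ x, (NT G par).degree x := by
            apply card_lt_sum (v := y₂)
            · intro x hx
              rcases mem_insert.mp hx with rfl | hx
              · exact (degree_pos_iff_exists_adj _ _).mpr ⟨y₂, hnt⟩
              · exact deg_pos_of_mem hb h2 hx
            · exact (degree_pos_iff_exists_adj _ _).mpr ⟨y₁, hnt.symm⟩
            · intro _ h
              rcases mem_insert.mp h with h | h
              · exact hy.ne' h
              · exact hn₂ h
          omega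
        · intro a b c d hab hcd hne
          apply edge_resolve_ii hc hb (S := fun x => x ∈ insert r (S0 G r par))
            ?_ ?_ (mem_insert_self _ _) hM' hab hcd hne
          · intro b hb'
            exact mem_insert_of_mem (hLow b hb')
          · intro x
            obtain ⟨z, hz, hxz⟩ := hT x
            exact ⟨z, mem_insert_of_mem hz, hxz⟩

end

end Pool.Agent.MD717
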